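import Pool.Agent.H.MP_6f3246_lc.B
set_option linter.style.longLine false
namespace Pool.Agent.Results.MP_6f3246_lc.Yes
open Set Cardinal Function Pool.Agent.H.MP_6f3246_lc

theorem result (fb : FB) (sh : SH) (ba : BA) : ∃ 𝓑 : Set LinOrd.{0}, 𝓑.Finite ∧ (∀ B ∈ 𝓑, InC B.carrier) ∧
    ∀ (L : Type) [LinearOrder L], InC L → ∃ B ∈ 𝓑, Emb B.carrier L := by
  obtain ⟨n, Y, y1, y2⟩ := fb
  let P : Set ℝ → Prop := fun A => ∀ a b, a < b → #(A ∩ Ioo a b : Set ℝ) = ℵ₁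
  obtain ⟨S, s1, s2, s3⟩ : ∃ S : Set LinOrd.{0}, S.Finite ∧ (∀ B ∈ S, InC B.carrier) ∧
      ∀ (L : Type) [LinearOrder L] (A : Set ℝ), InC L → P A → L ≃o A → ∀ A, P A → ∃ B ∈ S, Nonempty (B.carrier ≃o A) := by
    by_cases h : ∃ (B : LinOrd.{0}) (A : Set ℝ), InC B.carrier ∧ P A ∧ Nonempty (B.carrier ≃o A)
    · obtain ⟨B, A, a, b, ⟨e⟩⟩ := h
      exact ⟨{B}, finite_singleton _, fun _ h => h ▸ a, fun _ _ _ _ _ _ A' h => ⟨B, rfl, (ba A A' b h).map e.trans⟩⟩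
    · exact ⟨∅, finite_empty, by simp, fun L _ A a b e => absurd ⟨.of L, A, a, b, ⟨e⟩⟩ h⟩
  refine ⟨(range fun i => .of (W (pl (Y i).carrier))) ∪ S, (finite_range _).union s1, ?_, fun L _ hL => ?_⟩
  · rintro _ (⟨i, rfl⟩ | h)
    exacts [inCY (y1 i), s2 _ h]
  have := hL.1.dense
  by_cases h : ∀ a b : L, a < b → ∃ i, Q (Y i).carrier a b
  · obtain ⟨i, c, d, l, H⟩ : ∃ i, ∃ c d : L, c < d ∧ ∀ a b, c ≤ a → a < b → b ≤ d → Q (Y i).carrier a b := by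
      by_contra k
      push Not at k
      have : ∀ s : Finset (Fin n), ∃ c d : L, c < d ∧ ∀ i ∈ s, ¬ Q (Y i).carrier c d := fun s => by
        induction s using Finset.induction with
        | empty => have := hL.1.1; obtain ⟨c, d, l⟩ := exists_pair_lt L; exact ⟨c, d, l, by simp⟩
        | insert i s _ ih =>
          obtain ⟨c, d, l, H⟩ := ih
          obtain ⟨a, b, x, y, z, w⟩ := k i c d l
          refine ⟨a, b, y, fun j hj => (Finset.mem_insert.1 hj).elim (fun e => e ▸ w) fun hj ⟨lo, hi, u, v⟩ =>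
            H j hj ⟨lo, hi, fun t => ⟨x.trans (u t).1, (u t).2.1, (u t).2.2.trans z⟩, v⟩⟩
      obtain ⟨c, d, l, H⟩ := this Finset.univ
      exact (h c d l).elim fun i => H i (Finset.mem_univ i)
    exact ⟨_, Or.inl ⟨i, rfl⟩, embY (mk_ne_zero_iff.1 ((y1 i).trans_ne (aleph_pos 1).ne')).some hL l H⟩
  push Not at h
  obtain ⟨c, d, l, h⟩ := h
  obtain ⟨E, e1, e2⟩ := sh (Ioo c d) fun T t1 t2 => by
    by_contra k
    have o : ∀ q ∈ T, ∀ r ∈ T, q ≠ r → q.1 ≤ r.1 → q.2 ≤ r.1 := fun q a r b ne le => not_lt.1 fun k => by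
      obtain ⟨z, i, j⟩ := exists_between (lt_min k (t1 r b))
      exact disjoint_left.1 (t2 a b ne) ⟨le.trans_lt i, (lt_min_iff.1 j).1⟩ ⟨i, (lt_min_iff.1 j).2⟩
    have inj : InjOn Prod.fst T := fun q a r b e => by_contra fun ne => (t1 q a).not_ge (e ▸ o q a r b ne e.le)
    obtain ⟨i, ⟨f⟩⟩ := y2 (Prod.fst '' T) (not_countable_iff.1 fun x => k (countable_of_injective_of_countable_image inj x))
    choose g g1 g2 using fun y => (f y).2
    refine h i ⟨fun y => (g y).1, fun y => (g y).2, fun y => ⟨(g y).1.2.1.le, t1 _ (g1 y), (g y).2.2.2.le⟩, fun y z x => ?_⟩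
    have : (g y).1 < (g z).1 := by rw [g2, g2]; exact f.strictMono x
    exact o _ (g1 y) _ (g1 z) (fun e => this.ne (congrArg _ e)) this.le
  have dn : Dn (Ioo c d) := ⟨by
    obtain ⟨x, i, j⟩ := exists_between l
    obtain ⟨y, u, v⟩ := exists_between j
    exact ⟨⟨x, i, j⟩, ⟨y, i.trans u, v⟩, fun e => u.ne (congrArg Subtype.val e)⟩, fun a b x => by
      rw [← mk_image_eq Subtype.val_injective, ← hL.1.2 a b x]
      congr 2
      ext z
      exact ⟨fun ⟨_, h, e⟩ => e ▸ h, fun h => ⟨⟨z, a.2.1.trans h.1, h.2.trans b.2.2⟩, h, rfl⟩⟩⟩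
  obtain ⟨A, a1, ⟨e⟩⟩ := rep dn e1 e2
  obtain ⟨B, b1, ⟨f⟩⟩ := s3 (Ioo c d) A ⟨dn, fun x s ⟨y, hy⟩ i _ => ⟨E ∩ Iio x, inter_subset_right, e1.mono inter_subset_left,
      fun _ h => h.2.le, fun u hu => not_lt.1 fun k => let ⟨z, a, b, c⟩ := e2 u x k; b.not_ge (hu ⟨a, c⟩)⟩,
    fun x s ⟨y, hy⟩ i _ => ⟨E ∩ Iio x, inter_subset_right, e1.mono inter_subset_left,
      fun _ h => h.2.le, fun u hu => not_lt.1 fun k => let ⟨z, a, b, c⟩ := e2 x u k; c.not_ge (hu ⟨a, b⟩)⟩⟩ a1 e A a1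
  let g := f.trans e.symm
  refine ⟨B, Or.inr b1, emb_of (f := fun x => (g x).1) (fun _ _ h => g.strictMono h) (fun x u k => ?_) fun x u k => ?_⟩
  · obtain ⟨z, i, j⟩ := exists_between (max_lt k (g x).2.1)
    refine ⟨g.symm ⟨z, (max_lt_iff.1 i).2, j.trans (g x).2.2⟩, g.symm_apply_lt.2 j, ?_⟩
    simpa using (max_lt_iff.1 i).1
  · obtain ⟨z, i, j⟩ := exists_between (lt_min k (g x).2.2)
    refine ⟨g.symm ⟨z, (g x).2.1.trans i, (lt_min_iff.1 j).2⟩, g.lt_symm_apply.2 i, ?_⟩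
    simpa using (lt_min_iff.1 j).1

end Pool.Agent.Results.MP_6f3246_lc.Yes
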